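import Mathlib
import Pool.Agent.MP_26d9d0_an.Main

set_option autoImplicit false

namespace Pool.Agent.MP_26d9d0_an.OldNotClosed

open Pool.Agent.MP_26d9d0_an

/-- For every `n ≥ 2` there are Lipschitz weights `δ ≥ δ'` on `ℂ^n`, with `δ z = 1 / (1 + |z|)`,
such that the closure of `R` for the inductive limit topology of `O(δ')` is not contained in the
set `L` of bornological limits of elements of `R`. -/
theorem result (n : ℕ) (hn : 2 ≤ n) :
    ∃ (δ δ' : Weight n) (h : ∀ z, δ'.toFun z ≤ δ.toFun z),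
      LipschitzWith 1 δ.toFun ∧ LipschitzWith 1 δ'.toFun ∧
      (∀ z, δ.toFun z = 1 / (1 + ‖z‖)) ∧
      ¬ (@closure (O δ') (topO δ') (R δ δ' h) ⊆ L δ δ' h) := by
  have hij : (⟨0, by omega⟩ : Fin n) ≠ ⟨1, by omega⟩ := by simp
  exact ⟨δ₀ n, δ₁ ⟨1, by omega⟩, δ₁_le _, lip_inv, lip_small _, fun _ => rfl,
    fun h => target_not_mem hij (h (target_mem_closure hij))⟩

end Pool.Agent.MP_26d9d0_an.OldNotClosed
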